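import Mathlib
import Pool.Agent.Helper29.HC.Main
import Pool.Agent.Helper29.TH8.Indep

set_option autoImplicit false

namespace Pool.Agent.Results.MP_8c7236_co.Hierarchical

/-- Euclidean length. -/
noncomputable def len (v : Fin 3 → ℝ) : ℝ := Real.sqrt (∑ d, v d ^ 2)

/-- The angle at `p` of the triangle `p q r` has cosine at least `1 - δ`. -/
def Sharp (δ : ℝ) (p q r : Fin 3 → ℝ) : Prop :=
  (1 - δ) * (len (q - p) * len (r - p)) ≤ ∑ d, (q d - p d) * (r d - p d)

/-- Two of the points of `S` are close to each other, relative to another distance in `S`. -/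
def Close {n : ℕ} (δ : ℝ) (x : Fin n → Fin 3 → ℝ) (S : Finset (Fin n)) : Prop :=
  ∃ a ∈ S, ∃ b ∈ S, ∃ c ∈ S, ∃ d ∈ S, a ≠ b ∧ len (x b - x a) ≤ δ * len (x d - x c)

/-- The points of `S` are nearly collinear: every triangle has an angle of cosine `≥ 1 - δ`. -/
def Flat {n : ℕ} (δ : ℝ) (x : Fin n → Fin 3 → ℝ) (S : Finset (Fin n)) : Prop :=
  ∀ a ∈ S, ∀ b ∈ S, ∀ c ∈ S, a ≠ b → b ≠ c → a ≠ c →
    Sharp δ (x a) (x b) (x c) ∨ Sharp δ (x b) (x a) (x c) ∨ Sharp δ (x c) (x a) (x b)

/-- The four points of `S` are nearly a planar convex quadrilateral with the diagonals `a c` and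
`b d`: up to `δ |x c - x a|`, `x d + β x b = α x a + γ x c` with `1 + β = α + γ` and `α, β, γ` in
`[ε, 1 / ε]`; and no angle of the triangle `a b c` has cosine `≥ 1 - ε`. -/
def Cross {n : ℕ} (ε δ : ℝ) (x : Fin n → Fin 3 → ℝ) (S : Finset (Fin n)) : Prop :=
  ∃ a b c d, S = {a, b, c, d} ∧ ∃ α β γ : ℝ, ε ≤ α ∧ α ≤ 1 / ε ∧ ε ≤ β ∧ β ≤ 1 / ε ∧
    ε ≤ γ ∧ γ ≤ 1 / ε ∧ α + γ = 1 + β ∧
    len (x d + β • x b - (α • x a + γ • x c)) ≤ δ * len (x c - x a) ∧
    ¬ Sharp ε (x a) (x b) (x c) ∧ ¬ Sharp ε (x b) (x a) (x c) ∧ ¬ Sharp ε (x c) (x a) (x b)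

/-- The lower bound of Atiyah and Sutcliffe for hierarchical configurations of any number of points of
3-space: for all `n` and `ε > 0` there is `δ > 0` such that, if every four of the `n` distinct points
contain a relatively close pair, or are nearly collinear, or are nearly a planar strictly convex
quadrilateral, then the normalized determinant has absolute value at least `1`, and the value `1` only
if all the points are on a line. The spinors `(a i j, b i j)` of the directions are arbitrary unit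
ones. -/
theorem result :
    ∀ (n : ℕ) (ε : ℝ), 0 < ε → ∃ δ : ℝ, 0 < δ ∧
    ∀ x : Fin n → Fin 3 → ℝ, Function.Injective x →
    (∀ S : Finset (Fin n), S.card = 4 → Close δ x S ∨ Flat δ x S ∨ Cross ε δ x S) →
    ∀ a b : Fin n → Fin n → ℂ,
      (∀ i j : Fin n, i ≠ j →
        (![2 * (a i j * (starRingEnd ℂ) (b i j)).re,
           2 * (a i j * (starRingEnd ℂ) (b i j)).im,
           Complex.normSq (a i j) - Complex.normSq (b i j)] : Fin 3 → ℝ) =
        (fun c : Fin 3 => (x j c - x i c) / Real.sqrt (∑ d : Fin 3, (x j d - x i d) ^ 2))) →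
      1 ≤ ‖(Matrix.of (fun (i k : Fin n) =>
            (∏ j ∈ Finset.univ.erase i,
              (Polynomial.C (a i j) * Polynomial.X +
                Polynomial.C (b i j))).coeff (k : ℕ))).det‖ ∧
      (‖(Matrix.of (fun (i k : Fin n) =>
            (∏ j ∈ Finset.univ.erase i,
              (Polynomial.C (a i j) * Polynomial.X +
                Polynomial.C (b i j))).coeff (k : ℕ))).det‖ = 1 →
        Collinear ℝ (Set.range x)) := by
  intro n ε hε
  obtain ⟨δ, hδ, H⟩ := Pool.Agent.Helper29.HC.hier_main ε hε n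
  refine ⟨δ, hδ, fun x hx hq a b hab => ?_⟩
  have h := H x hx hq
  rw [Pool.Agent.Helper29.TH8.DX_hopf n x hx a b hab]
  exact h

end Pool.Agent.Results.MP_8c7236_co.Hierarchical
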