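import Mathlib
import Pool.Agent.Helper29.MC.MonoWeak
import Pool.Agent.Helper29.TH8.Indep

set_option autoImplicit false

namespace Pool.Agent.Results.MP_8c7236_co.MonotoneConvex

/-- The points `x i` lie in one plane of 3-space, on the boundary of one convex set of this plane:
for an orthonormal pair `e`, `g` and an origin `o`, every `x i` is `o + s i • e + t i • g`, and all
the coordinate pairs `(s i, t i)` are in the frontier of one convex subset `K` of the coordinate
plane. -/
def OnConvexCurve {n : ℕ} (x : Fin n → Fin 3 → ℝ) : Prop :=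
  ∃ (o e g : Fin 3 → ℝ) (K : Set (ℝ × ℝ)) (s t : Fin n → ℝ),
    ∑ d, e d ^ 2 = 1 ∧ ∑ d, g d ^ 2 = 1 ∧ ∑ d, e d * g d = 0 ∧ Convex ℝ K ∧
    (∀ i, (s i, t i) ∈ frontier K) ∧ ∀ i d, x i d = o d + s i * e d + t i * g d

/-- `a i j`, `b i j` are unit spinors of the directions from `x i` to `x j`. -/
def Spinors {n : ℕ} (x : Fin n → Fin 3 → ℝ) (a b : Fin n → Fin n → ℂ) : Prop :=
  ∀ i j : Fin n, i ≠ j →
    (![2 * (a i j * (starRingEnd ℂ) (b i j)).re,
       2 * (a i j * (starRingEnd ℂ) (b i j)).im,
       Complex.normSq (a i j) - Complex.normSq (b i j)] : Fin 3 → ℝ) =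
    (fun c : Fin 3 => (x j c - x i c) / Real.sqrt (∑ d : Fin 3, (x j d - x i d) ^ 2))

/-- The absolute value of the determinant of the coefficients of the products of the spinors. -/
noncomputable def absDet (n : ℕ) (a b : Fin n → Fin n → ℂ) : ℝ :=
  ‖(Matrix.of (fun (i k : Fin n) =>
      (∏ j ∈ Finset.univ.erase i,
        (Polynomial.C (a i j) * Polynomial.X +
          Polynomial.C (b i j))).coeff (k : ℕ))).det‖

/-- Monotonicity of the normalized determinant of Atiyah and Sutcliffe for finite sets of points on
the boundary of a planar convex set: for every `n`, every such configuration of `n` points and every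
`k` of its points, the absolute value for the `k` points is at most the absolute value for all the
points. For `k = 0` (or `k = 1`) this is the lower bound `1` of Atiyah and Sutcliffe. -/
theorem result :
    ∀ (n : ℕ) (x : Fin n → Fin 3 → ℝ), Function.Injective x → OnConvexCurve x →
    ∀ (k : ℕ) (s : Fin k → Fin n), Function.Injective s →
    ∀ a b : Fin n → Fin n → ℂ, Spinors x a b →
      absDet k (fun i j => a (s i) (s j)) (fun i j => b (s i) (s j)) ≤ absDet n a b := by
  intro n x hinj hcurve
  obtain ⟨o, e, g, K, u, t, he, hg, heg, hK, hut, hx⟩ := hcurve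
  have hemb : x = Pool.Agent.Helper28.CP.emb o e g (fun i => (u i, t i)) := by
    funext i d
    rw [hx]
    rfl
  have hO : Pool.Agent.Helper28.CP.Ortho e g := ⟨he, hg, heg⟩
  have hp : Function.Injective (fun i => (u i, t i)) := by
    rw [hemb] at hinj
    exact (Pool.Agent.Helper28.CP.emb_injective n o e g hO _).mp hinj
  intro k s hs a b hab
  have h1 := Pool.Agent.Helper29.MC.mono_frontier n k o e g hO (fun i => (u i, t i)) hp K hK
    hut s hs
  have h2 := Pool.Agent.Helper29.TH8.DX_hopf n x hinj a b hab
  have h3 := Pool.Agent.Helper29.TH8.DX_hopf k (fun i => x (s i)) (hinj.comp hs)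
    (fun i j => a (s i) (s j)) (fun i j => b (s i) (s j))
    (fun i j hij => hab (s i) (s j) (hs.ne hij))
  have h4 : (fun i => x (s i)) =
      Pool.Agent.Helper28.CP.emb o e g (fun j => (fun i => (u i, t i)) (s j)) := by
    rw [hemb]
    rfl
  unfold absDet
  rw [h2, h3, h4, hemb]
  exact h1

end Pool.Agent.Results.MP_8c7236_co.MonotoneConvex
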